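import Pool.Agent.W_448h2_h63.HA

/-!
# Localisation (MP_448cb3_co, case B, Route T, block H)

`e_a := rst (cext (i + 1) κ a) e`.  The quantity `EE` of a configuration supported on the components `S` is at
least the sum of the `EE` of its restrictions plus the surpluses of the elements outside the components.
helper61.
-/

namespace Pool.Agent.GaussPoset.Win.H2

set_option linter.unusedSectionVars false

open Finset I2 K2 Ut

universe u

variable {P : Type u} [Fintype P] [PartialOrder P] [DecidableEq P] {r i : ℕ} {e : P → ℕ}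

variable {ι : Type*} [DecidableEq ι] {κ : P → ι} {K : Finset P} {psi : P → P}

/-! ### membership -/

lemma ca_up {l : ℕ} {a : ι} {x y : P} (hx : x ∈ cext l κ a) (h : x ⋖ y) : y ∈ cext l κ a := by
  rw [mem_cext] at hx ⊢
  exact fun w hw hl => hx w (h.le.trans hw) hl

lemma ca_le {l : ℕ} (hκ : Split l κ) {a : ι} {x : P} (hx : lev x ≤ l) : x ∈ cext l κ a ↔ κ x = a :=
  ⟨fun h => (mem_cext.1 h) x le_rfl hx, fun h => mem_cext_of_le hκ hx h⟩

/-- neighbours of an element of the part up to the level `l` -/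
lemma ca_dn {l : ℕ} (hκ : Split l κ) {a : ι} {x y : P} (hy : y ∈ cext l κ a) (h : x ⋖ y)
    (hx : lev x ≤ l) (hl : lev y ≤ l) : x ∈ cext l κ a := by
  rw [ca_le hκ hx]
  rw [ca_le hκ hl] at hy
  rw [hκ h hx, hy]

lemma rst_in {C : Finset P} {x : P} (hx : x ∈ C) : rst C e x = e x := by
  unfold rst
  rw [if_pos hx]

lemma rst_out {C : Finset P} {x : P} (hx : x ∉ C) : rst C e x = 0 := by
  unfold rst
  rw [if_neg hx]

lemma rst_le (C : Finset P) (e : P → ℕ) (x : P) : rst C e x ≤ e x := by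
  unfold rst
  split_ifs <;> omega

/-! ### (a) -/

lemma FD_rst {a : ι} {z : P} (h : FD (rst (cext (i + 1) κ a) e) z) :
    z ∈ cext (i + 1) κ a ∧ FD e z := by
  obtain ⟨w, hw, hlt⟩ := h
  have hwC : w ∈ cext (i + 1) κ a := by
    by_contra h1
    rw [rst_out h1] at hlt
    omega
  have hz := ca_up hwC hw
  rw [rst_in hwC, rst_in hz] at hlt
  exact ⟨hz, w, hw, hlt⟩

lemma FU_rst (H : Gr P r) (hκ : Split (i + 1) κ) {a : ι} {z : P} (hz : lev z ≤ i)
    (h : FU (rst (cext (i + 1) κ a) e) z) : z ∈ cext (i + 1) κ a ∧ FU e z := by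
  obtain ⟨w, hw, hlt⟩ := h
  have hwC : w ∈ cext (i + 1) κ a := by
    by_contra h1
    rw [rst_out h1] at hlt
    omega
  have hl := lev_uc H (mem_uc.2 hw)
  have hz := ca_dn hκ hwC hw (by omega) (by omega)
  rw [rst_in hwC, rst_in hz] at hlt
  exact ⟨hz, w, hw, hlt⟩

theorem admL_rst (hL : AdmL i e) (a : ι) : AdmL i (rst (cext (i + 1) κ a) e) := by
  rintro z hz ⟨h1, y, hy, hle⟩
  obtain ⟨hzC, h2⟩ := FD_rst h1
  rw [rst_in hzC, rst_in (ca_up hzC hy)] at hle
  exact hL z hz ⟨h2, y, hy, hle⟩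

theorem admU_rst (H : Gr P r) (hκ : Split (i + 1) κ) (hU : AdmU i e) (a : ι) :
    AdmU i (rst (cext (i + 1) κ a) e) := by
  rintro z hz ⟨h1, y, hy, hle⟩
  obtain ⟨hzC, h2⟩ := FU_rst H hκ hz.le h1
  have hl := lev_dc H (mem_dc.2 hy)
  rw [rst_in hzC, rst_in (ca_dn hκ hzC hy (by omega) (by omega))] at hle
  exact hU z hz ⟨h2, y, hy, hle⟩

lemma AL_rst_sub (a : ι) : AL i (rst (cext (i + 1) κ a) e) ⊆ AL i e := by
  classical
  intro v hv
  unfold AL at hv ⊢
  rw [mem_filter] at hv ⊢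
  exact ⟨hv.1, (FD_rst hv.2).2⟩

lemma AU_rst_sub (H : Gr P r) (hκ : Split (i + 1) κ) (a : ι) :
    AU i (rst (cext (i + 1) κ a) e) ⊆ AU i e := by
  classical
  intro v hv
  unfold AU at hv ⊢
  rw [mem_filter] at hv ⊢
  exact ⟨hv.1, (FU_rst H hκ (mem_lv.1 hv.1).le hv.2).2⟩

theorem dis_rst (H : Gr P r) (hκ : Split (i + 1) κ) (hd : Disjoint (AL i e) (AU i e)) (a : ι) :
    Disjoint (AL i (rst (cext (i + 1) κ a) e)) (AU i (rst (cext (i + 1) κ a) e)) :=
  disjoint_of_subset_left (AL_rst_sub a) (disjoint_of_subset_right (AU_rst_sub H hκ a) hd)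

/-! ### (b) -/

/-- an element with label zero has surplus zero -/
lemma sur_zero {c c' : P → Finset P} {z : P} (h : e z = 0) : sur c c' e z = 0 := by
  classical
  unfold sur
  rw [if_neg, h]
  · simp
  · rintro ⟨x, -, hlt⟩
    omega

theorem sur_low {a : ι} {z : P} (hz : z ∈ cext (i + 1) κ a) :
    sur uc dc (rst (cext (i + 1) κ a) e) z ≤ sur uc dc e z := by
  classical
  set f := rst (cext (i + 1) κ a) e with hf
  have ez : f z = e z := rst_in hz
  have eu : ∀ x ∈ uc z, f x = e x := fun x hx => rst_in (ca_up hz (mem_uc.1 hx))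
  have kn_eq : kn uc f z = kn uc e z := by
    unfold kn
    refine filter_congr fun x hx => ?_
    rw [ez, eu x hx]
  have kl_eq : kl uc f z ↔ kl uc e z := by rw [kl_iff, kl_iff, kn_eq]
  have gu_eq : gu uc f z ↔ gu uc e z := by
    unfold gu
    constructor
    · rintro ⟨x, hx, h⟩
      exact ⟨x, hx, by rw [← ez, ← eu x hx]; exact h⟩
    · rintro ⟨x, hx, h⟩
      exact ⟨x, hx, by rw [ez, eu x hx]; exact h⟩
  have so_sub : so uc dc e z ⊆ so uc dc f z := by
    intro x hx
    rw [mem_so] at hx ⊢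
    obtain ⟨⟨h1, h2⟩, h3⟩ := hx
    refine ⟨⟨h1, by rw [ez, eu x h1]; exact h2⟩, ?_⟩
    have h4 : kr dc f x ⊆ kr dc e x := by
      intro w hw
      rw [mem_kr] at hw ⊢
      refine ⟨hw.1, ?_⟩
      have h5 := rst_le (cext (i + 1) κ a) e w
      rw [← hf] at h5
      have h6 := hw.2
      rw [eu x h1] at h6
      omega
    have h5 := card_le_card h4
    have h6 : 0 < (kr dc f x).card := by
      rw [card_pos]
      exact ⟨z, mem_kr.2 ⟨mem_dc.2 (mem_uc.1 h1), by rw [ez, eu x h1]; exact h2⟩⟩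
    omega
  have h7 := card_le_card so_sub
  unfold sur
  by_cases h8 : kl uc e z
  · rw [if_pos h8, if_pos (kl_eq.2 h8), ez]
    unfold cc
    rw [kn_eq]
    by_cases h9 : gu uc e z
    · rw [if_pos h9, if_pos (gu_eq.2 h9)]
      omega
    · rw [if_neg h9, if_neg (fun h => h9 (gu_eq.1 h))]
      omega
  · rw [if_neg h8, if_neg (fun h => h8 (kl_eq.1 h)), ez]

theorem sur_upp (H : Gr P r) (hκ : Split (i + 1) κ) {a : ι} {z : P} (hz : z ∈ cext (i + 1) κ a)
    (hl : lev z < i) : sur dc uc (rst (cext (i + 1) κ a) e) z = sur dc uc e z := by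
  classical
  set f := rst (cext (i + 1) κ a) e with hf
  have ez : f z = e z := rst_in hz
  have hd : ∀ x ∈ dc z, x ∈ cext (i + 1) κ a ∧ lev x ≤ i := by
    intro x hx
    have h1 := lev_dc H hx
    exact ⟨ca_dn hκ hz (mem_dc.1 hx) (by omega) (by omega), by omega⟩
  have eu : ∀ x ∈ dc z, f x = e x := fun x hx => rst_in (hd x hx).1
  have kn_eq : kn dc f z = kn dc e z := by
    unfold kn
    refine filter_congr fun x hx => ?_
    rw [ez, eu x hx]
  have kl_eq : kl dc f z ↔ kl dc e z := by rw [kl_iff, kl_iff, kn_eq]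
  have gu_eq : gu dc f z ↔ gu dc e z := by
    unfold gu
    constructor
    · rintro ⟨x, hx, h⟩
      exact ⟨x, hx, by rw [← ez, ← eu x hx]; exact h⟩
    · rintro ⟨x, hx, h⟩
      exact ⟨x, hx, by rw [ez, eu x hx]; exact h⟩
  have so_eq : so dc uc f z = so dc uc e z := by
    ext x
    rw [mem_so, mem_so]
    have h4 : x ∈ dc z → kr uc f x = kr uc e x := by
      intro hx
      unfold kr
      refine filter_congr fun w hw => ?_
      rw [eu x hx]
      rw [hf, rst_in (ca_up (hd x hx).1 (mem_uc.1 hw))]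
    constructor
    · rintro ⟨⟨h1, h2⟩, h3⟩
      exact ⟨⟨h1, by rw [← ez, ← eu x h1]; exact h2⟩, by rw [← h4 h1]; exact h3⟩
    · rintro ⟨⟨h1, h2⟩, h3⟩
      exact ⟨⟨h1, by rw [ez, eu x h1]; exact h2⟩, by rw [h4 h1]; exact h3⟩
  unfold sur
  by_cases h8 : kl dc e z
  · rw [if_pos h8, if_pos (kl_eq.2 h8), ez]
    unfold cc
    rw [kn_eq, so_eq]
    by_cases h9 : gu dc e z
    · rw [if_pos h9, if_pos (gu_eq.2 h9)]
    · rw [if_neg h9, if_neg (fun h => h9 (gu_eq.1 h))]
  · rw [if_neg h8, if_neg (fun h => h8 (kl_eq.1 h)), ez]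

/-! ### (c) -/

/-- `EE` as a sum of surpluses -/
theorem EE_sur (H : Gr P r) (hir : i ≤ r) (hq : NoQ P (i + 2)) (hg : ∀ m, m + 1 = i → Good P m)
    (hL : AdmL i e) (hU : AdmU i e) :
    EE i e = ∑ z ∈ lS P i, sur uc dc e z + ∑ z ∈ uS P i, sur dc uc e z + ∑ z ∈ lv P i, (e z : ℤ) := by
  classical
  have h1 := K2.sum_cc (K2.side_low H hq) (adm_low hL)
  have h2 := K2.sum_cc (K2.side_up H hir hg) (adm_up hU)
  have h3 : ∑ z ∈ lS P i, sur uc dc e z = ∑ z ∈ lS P i, (e z : ℤ) -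
      ∑ z ∈ KK uc e (lS P i), cc uc dc e z := by
    unfold sur KK
    rw [Finset.sum_sub_distrib, Finset.sum_filter]
  have h4 : ∑ z ∈ uS P i, sur dc uc e z = ∑ z ∈ uS P i, (e z : ℤ) -
      ∑ z ∈ KK dc e (uS P i), cc dc uc e z := by
    unfold sur KK
    rw [Finset.sum_sub_distrib, Finset.sum_filter]
  rw [h3, h4, h1, h2, KD_low, KD_up, fr_low, fr_up]
  have h5 : ∑ x, (e x : ℤ) = ∑ x ∈ lS P i, (e x : ℤ) + ∑ x ∈ uS P i, (e x : ℤ) +
      ∑ x ∈ lv P i, (e x : ℤ) := by
    have h6 : (univ : Finset P) = (lS P i ∪ uS P i) ∪ lv P i := by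
      ext x
      simp only [mem_univ, mem_union, mem_lS, mem_uS, mem_lv, true_iff]
      omega
    rw [h6, Finset.sum_union, Finset.sum_union]
    · rw [disjoint_left]
      intro x hx hx'
      rw [mem_lS] at hx
      rw [mem_uS] at hx'
      omega
    · rw [disjoint_left]
      intro x hx hx'
      rw [mem_union, mem_lS, mem_uS] at hx
      rw [mem_lv] at hx'
      omega
  unfold EE
  rw [h5]
  ring

/-- a sum of restricted functions over the components -/
lemma sum_parts {S : Finset ι} (D : Finset P) (g : ι → P → ℤ)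
    (h0 : ∀ a z, z ∉ cext (i + 1) κ a → g a z = 0) :
    ∑ a ∈ S, ∑ z ∈ D, g a z = ∑ z ∈ D.filter (fun z => z ∈ cuni (i + 1) κ),
      ∑ a ∈ S, if z ∈ cext (i + 1) κ a then g a z else 0 := by
  classical
  rw [sum_comm, sum_filter]
  refine sum_congr rfl fun z _ => ?_
  split_ifs with h
  · refine sum_congr rfl fun a _ => ?_
    split_ifs with h1
    · rfl
    · exact h0 a z h1
  · refine sum_eq_zero fun a _ => h0 a z fun h1 => h ?_
    unfold cuni
    rw [mem_biUnion]
    obtain ⟨y, hy, hy0⟩ := exists_top z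
    exact ⟨a, mem_image.2 ⟨y, mem_univ y, (mem_cext.1 h1) y hy (by omega)⟩, h1⟩

/-- only one part contains `z` -/
lemma sum_one {S : Finset ι} {b : ι} {z : P} (hz : z ∈ cext (i + 1) κ b) (g : ι → ℤ) :
    ∑ a ∈ S, (if z ∈ cext (i + 1) κ a then g a else 0) = if b ∈ S then g b else 0 := by
  classical
  have h1 : ∀ a, z ∈ cext (i + 1) κ a ↔ a = b := by
    intro a
    constructor
    · intro h
      by_contra hne
      exact disjoint_left.1 (disj_cext (l := i + 1) (κ := κ) hne) h hz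
    · rintro rfl
      exact hz
  simp only [h1]
  rw [sum_ite_eq']

/-- an element of a part outside `S` has label zero -/
lemma zero_of {S : Finset ι} (hs : Spt (US (i + 1) κ S) e) {b : ι} {z : P}
    (hz : z ∈ cext (i + 1) κ b) (hb : b ∉ S) : e z = 0 := by
  apply hs
  intro h
  exact disjoint_left.1 (disj_US hb) h hz

/-- comparison of the sums over the parts -/
lemma sum_le_parts {S : Finset ι} (D : Finset P) (g : ι → P → ℤ) (G : P → ℤ)
    (h0 : ∀ a z, z ∉ cext (i + 1) κ a → g a z = 0)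
    (h1 : ∀ a z, z ∈ D → z ∈ cext (i + 1) κ a → g a z ≤ G z)
    (h2 : ∀ a z, z ∈ D → z ∈ cext (i + 1) κ a → a ∉ S → G z = 0) :
    ∑ a ∈ S, ∑ z ∈ D, g a z ≤ ∑ z ∈ D.filter (fun z => z ∈ cuni (i + 1) κ), G z := by
  classical
  rw [sum_parts D g h0]
  refine sum_le_sum fun z hz => ?_
  rw [mem_filter] at hz
  obtain ⟨b, -, hb⟩ := mem_biUnion.1 hz.2
  rw [sum_one hb]
  split_ifs with h
  · exact h1 b z hz.1 hb
  · rw [h2 b z hz.1 hb h]

/-- THE LOCALISATION -/
theorem loc (H : Gr P r) (hir : i ≤ r) (hq : NoQ P (i + 2)) (hg : ∀ m, m + 1 = i → Good P m)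
    (hκ : Split (i + 1) κ) {S : Finset ι} (hs : Spt (US (i + 1) κ S) e) (hL : AdmL i e)
    (hU : AdmU i e) :
    ∑ a ∈ S, EE i (rst (cext (i + 1) κ a) e) +
      ∑ z ∈ univ.filter (fun z => z ∉ cuni (i + 1) κ), sur uc dc e z ≤ EE i e := by
  classical
  rw [EE_sur H hir hq hg hL hU,
    sum_congr rfl fun a _ => EE_sur H hir hq hg (admL_rst hL a) (admU_rst H hκ hU a),
    sum_add_distrib, sum_add_distrib]
  have h1 : ∑ a ∈ S, ∑ z ∈ lS P i, sur uc dc (rst (cext (i + 1) κ a) e) z ≤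
      ∑ z ∈ (lS P i).filter (fun z => z ∈ cuni (i + 1) κ), sur uc dc e z :=
    sum_le_parts _ _ _ (fun a z hz => sur_zero (rst_out hz)) (fun a z _ hz => sur_low hz)
      (fun a z _ hz ha => sur_zero (zero_of hs hz ha))
  have h2 : ∑ a ∈ S, ∑ z ∈ uS P i, sur dc uc (rst (cext (i + 1) κ a) e) z ≤
      ∑ z ∈ (uS P i).filter (fun z => z ∈ cuni (i + 1) κ), sur dc uc e z :=
    sum_le_parts _ _ _ (fun a z hz => sur_zero (rst_out hz))
      (fun a z h hz => (sur_upp H hκ hz (mem_uS.1 h)).le)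
      (fun a z _ hz ha => sur_zero (zero_of hs hz ha))
  have h3 : ∑ a ∈ S, ∑ z ∈ lv P i, ((rst (cext (i + 1) κ a) e z : ℕ) : ℤ) ≤
      ∑ z ∈ (lv P i).filter (fun z => z ∈ cuni (i + 1) κ), (e z : ℤ) :=
    sum_le_parts _ _ _ (fun a z hz => by rw [rst_out hz]; rfl)
      (fun a z h hz => by rw [rst_in hz])
      (fun a z _ hz ha => by rw [zero_of hs hz ha]; rfl)
  have h4 : (uS P i).filter (fun z => z ∈ cuni (i + 1) κ) = uS P i := by
    rw [filter_eq_self]
    intro z hz
    rw [mem_uS] at hz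
    exact le_mem_cuni hκ (by omega)
  have h5 : (lv P i).filter (fun z => z ∈ cuni (i + 1) κ) = lv P i := by
    rw [filter_eq_self]
    intro z hz
    rw [mem_lv] at hz
    exact le_mem_cuni hκ (by omega)
  have h6 : ∑ z ∈ lS P i, sur uc dc e z =
      ∑ z ∈ (lS P i).filter (fun z => z ∈ cuni (i + 1) κ), sur uc dc e z +
      ∑ z ∈ univ.filter (fun z => z ∉ cuni (i + 1) κ), sur uc dc e z := by
    rw [← sum_filter_add_sum_filter_not (lS P i) (fun z => z ∈ cuni (i + 1) κ)]
    congr 1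
    refine sum_congr ?_ fun _ _ => rfl
    ext z
    rw [mem_filter, mem_filter]
    refine ⟨fun h => ⟨mem_univ z, h.2⟩, fun h => ⟨?_, h.2⟩⟩
    rw [mem_lS]
    by_contra h7
    exact h.2 (le_mem_cuni hκ (by omega))
  rw [h4] at h2
  rw [h5] at h3
  rw [h6]
  linarith

/-! ### (d) -/

theorem sk_loc (H : Gr P r) (hκ : Split (i + 1) κ) (hM : Mat P i K psi) {S : Finset ι}
    (hSS : ∀ z : P, lev z = i + 2 → z ∉ cuni (i + 1) κ → ∀ y ∈ uc z, (uc y).card = 1) :
    ∑ a ∈ S, (SK i K psi (rst (cext (i + 1) κ a) e)).card ≤ (SK i K psi e).card := by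
  classical
  have key : ∀ a, SK i K psi (rst (cext (i + 1) κ a) e) ⊆
      (SK i K psi e).filter (fun y => κ y = a) := by
    intro a y hy
    rw [mem_SK] at hy
    obtain ⟨hyd, hyK, hS⟩ := hy
    obtain ⟨hp, hpd⟩ := hM.low y hyd hyK
    have hyd' := mem_dbL.1 hyd
    have hp' := mem_dbU.1 hp
    -- the component of `y` and `psi y`
    have hsite : ∀ x ∈ uc y, κ x = κ y ∧ κ x = κ (psi y) ∧ lev x = i := by
      intro x hx
      have h1 := lev_uc H hx
      have hx' : x ∈ dc (psi y) := by rw [hpd]; exact hx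
      exact ⟨(hκ (mem_uc.1 hx) (by omega)).symm, hκ (mem_dc.1 hx') (by omega), by omega⟩
    obtain ⟨x0, hx0⟩ : (uc y).Nonempty := card_pos.1 (by omega)
    have hky : κ (psi y) = κ y := by
      rw [← (hsite x0 hx0).1, (hsite x0 hx0).2.1]
    have hya : κ y = a := by
      rcases hS.one with h | h
      · by_contra hne
        have h1 : y ∉ cext (i + 1) κ a := by rw [ca_le hκ (by omega)]; exact hne
        have h2 := h.1
        rw [rst_out h1] at h2
        omega
      · by_contra hne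
        have h1 : psi y ∉ cext (i + 1) κ a := by rw [ca_le hκ (by omega), hky]; exact hne
        have h2 := h.2
        rw [rst_out h1] at h2
        omega
    have yC : y ∈ cext (i + 1) κ a := by rw [ca_le hκ (by omega)]; exact hya
    have pC : psi y ∈ cext (i + 1) κ a := by rw [ca_le hκ (by omega), hky]; exact hya
    have xC : ∀ x ∈ uc y, x ∈ cext (i + 1) κ a := fun x hx => ca_up yC (mem_uc.1 hx)
    rw [mem_filter, mem_SK]
    refine ⟨⟨hyd, hyK, ⟨?_, ?_, ?_, ?_, ?_, ?_⟩⟩, hya⟩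
    · have h1 := hS.one
      rw [rst_in yC, rst_in pC] at h1
      exact h1
    · intro z hz
      by_cases hzC : z ∈ cext (i + 1) κ a
      · have := hS.lo z hz
        rwa [rst_in hzC] at this
      · exfalso
        have hlz := lev_dc H hz
        have hyz : y ∈ uc z := mem_uc.2 (mem_dc.1 hz)
        have h1 := hSS z (by omega) (fun h => by
          obtain ⟨b, -, hb⟩ := mem_biUnion.1 h
          have h2 := (ca_le hκ (by omega)).1 (ca_up hb (mem_uc.1 hyz))
          rw [hya] at h2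
          rw [← h2] at hb
          exact hzC hb) y hyz
        omega
    · intro u hu
      have := hS.up u hu
      rwa [rst_in (ca_up pC (mem_uc.1 hu))] at this
    · obtain ⟨x, hx, h0⟩ := hS.ex
      rw [rst_in (xC x hx)] at h0
      exact ⟨x, hx, h0⟩
    · intro x hx h0 z hz hne
      have h1 := hS.lo' x hx (by rw [rst_in (xC x hx)]; exact h0) z hz hne
      have h2 := (hsite x hx).2.2
      have h3 := lev_dc H hz
      rwa [rst_in (ca_dn hκ (xC x hx) (mem_dc.1 hz) (by omega) (by omega))] at h1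
    · intro x hx h0 u hu hne
      have h1 := hS.up' x hx (by rw [rst_in (xC x hx)]; exact h0) u hu hne
      rwa [rst_in (ca_up (xC x hx) (mem_uc.1 hu))] at h1
  have h1 : ∑ a ∈ S, (SK i K psi (rst (cext (i + 1) κ a) e)).card ≤
      ∑ a ∈ S, ((SK i K psi e).filter (fun y => κ y = a)).card :=
    sum_le_sum fun a _ => card_le_card (key a)
  refine h1.trans ?_
  rw [← card_biUnion]
  · exact card_le_card (biUnion_subset.2 fun a _ => filter_subset _ _)
  · intro a _ b _ hab
    show Disjoint _ _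
    rw [disjoint_left]
    intro y hy hy'
    rw [mem_filter] at hy hy'
    exact hab (hy.2.symm.trans hy'.2)

/-! ### (e) -/

theorem sum_loc {S : Finset ι} (hs : Spt (US (i + 1) κ S) e) :
    ∑ a ∈ S, ∑ x, rst (cext (i + 1) κ a) e x +
      ∑ z ∈ univ.filter (fun z => z ∉ cuni (i + 1) κ), e z = ∑ x, e x := by
  classical
  rw [sum_comm, ← sum_filter_add_sum_filter_not univ (fun z => z ∈ cuni (i + 1) κ) e,
    ← sum_filter_add_sum_filter_not univ (fun z => z ∈ cuni (i + 1) κ)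
      (fun z => ∑ a ∈ S, rst (cext (i + 1) κ a) e z)]
  have h1 : ∑ z ∈ univ.filter (fun z => z ∉ cuni (i + 1) κ),
      ∑ a ∈ S, rst (cext (i + 1) κ a) e z = 0 := by
    refine sum_eq_zero fun z hz => sum_eq_zero fun a _ => rst_out fun h => ?_
    rw [mem_filter] at hz
    apply hz.2
    unfold cuni
    rw [mem_biUnion]
    obtain ⟨y, hy, hy0⟩ := exists_top z
    exact ⟨a, mem_image.2 ⟨y, mem_univ y, (mem_cext.1 h) y hy (by omega)⟩, h⟩
  rw [h1, add_zero]
  congr 1
  refine sum_congr rfl fun z hz => ?_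
  rw [mem_filter] at hz
  obtain ⟨b, -, hb⟩ := mem_biUnion.1 hz.2
  by_cases hbS : b ∈ S
  · rw [sum_eq_single_of_mem b hbS, rst_in hb]
    intro a _ hne
    exact rst_out fun h => disjoint_left.1 (disj_cext (l := i + 1) (κ := κ) hne) h hb
  · rw [zero_of hs hb hbS]
    refine sum_eq_zero fun a ha => rst_out fun h => ?_
    have hne : a ≠ b := by
      rintro rfl
      exact hbS ha
    exact disjoint_left.1 (disj_cext (l := i + 1) (κ := κ) hne) h hb

end Pool.Agent.GaussPoset.Win.H2
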